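import Pool.Agent.U556.BD6

set_option autoImplicit false

/-! The capacities `A_{α,p,p}` and `B_{α,p}` have the same compact null sets for `0 < p < 1`. -/

namespace Pool.Agent.Results.MP_9b3711_an.SameNullSets

open MeasureTheory Pool.Agent.U556.BC
open scoped SchwartzMap

/-- **Full answer (yes) to the question.** Let `n ≥ 1`, `0 < p < 1`, `α > 0`, and let `D` be any
class of Schwartz functions on `ℝ^n` containing the compactly supported ones. For a compact set
`K ⊆ ℝ^n` let `capA D φ α p K` be the infimum of the Besov quantity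
`∑_j 2^(jαp) ‖u_j‖_p^p` (the `p`-th power of the quasi-norm of `Λ^{pp}_α`) and `capB D φ α p K` the
infimum of `∫ (∑_j (2^(jα) |u_j|)^2)^(p/2)` (the `p`-th power of the quasi-norm of
`G_α * H^p = F^α_{p,2}`), over all real `u` of the class `D` with `u ≥ 1` on `K`; here `u_j` are the
Littlewood-Paley pieces of `u` with respect to an arbitrary smooth cutoff `φ`.
Then `capA = 0` if and only if `capB = 0`. Moreover the null sets are determined: if `αp < n` they
are the compact sets with `H^{n-αp}(K) = 0`, and if `αp ≥ n` only the empty set is null. -/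
theorem result (n : ℕ) (hn : 1 ≤ n) (φ : E n → ℝ) (hφ : IsCutoff φ) (α p : ℝ) (hα : 0 < α)
    (hp : 0 < p) (hp1 : p < 1) (D : Set 𝓢(E n, ℂ))
    (hD : ∀ u : 𝓢(E n, ℂ), HasCompactSupport u → u ∈ D) (K : Set (E n)) (hK : IsCompact K) :
    (capA D φ α p K = 0 ↔ capB D φ α p K = 0) ∧
    (α * p < n → (capA D φ α p K = 0 ↔ μH[n - α * p] K = 0)) ∧
    (n ≤ α * p → (capA D φ α p K = 0 ↔ K = ∅)) :=
  main hφ hn hα hp hp1 hD hK

end Pool.Agent.Results.MP_9b3711_an.SameNullSets
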